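import Pool.Agent.UMG.StmtsA

set_option autoImplicit false

/-!
# Squad UMG, row PHG: the functional and the sum over the codes
-/

namespace Pool.Agent.UMG.A.H23

open Finset Pool.Agent.UMG

theorem map_csum {R S : Type} [CommSemiring R] [CommSemiring S] (L : R →+ S) (k : ℕ) :
    ∀ Ψ : List ℕ → R, L (csum k Ψ) = csum k (fun p => L (Ψ p)) := by
  induction k using Nat.strong_induction_on with
  | _ k ih =>
    intro Ψ
    cases k with
    | zero => rw [csum, csum]
    | succ k =>
      rw [csum, csum, map_sum]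
      refine Finset.sum_congr rfl fun i hi => ?_
      rw [← nsmul_eq_mul, ← nsmul_eq_mul, map_nsmul, ih (k - i) (by omega)]

theorem map_gsum {R S : Type} [CommSemiring R] [CommSemiring S] (L : R →+ S) (n : ℕ) :
    ∀ (d : List ℕ) (Ψ : Code → R), d.length = n →
      L (gsum d Ψ) = gsum d (fun c => L (Ψ c)) := by
  induction n using Nat.strong_induction_on with
  | _ n ih =>
    intro d Ψ hd
    cases d with
    | nil => rw [gsum, gsum]
    | cons k t =>
      rw [gsum, gsum, map_sum]
      refine Finset.sum_congr rfl fun i hi => ?_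
      rw [← Nat.cast_pow, ← Nat.cast_pow, ← Nat.cast_mul, ← Nat.cast_mul, ← nsmul_eq_mul,
        ← nsmul_eq_mul, map_nsmul, map_csum]
      congr 1
      congr 1
      funext p
      refine ih (t.drop i).length ?_ (t.drop i) _ rfl
      rw [List.length_drop, ← hd, List.length_cons]
      omega

/-- the value of the functional on a larger set -/
theorem phi_eq (J : ℕ) (f : ℕ → ℕ → ℝ) (p : MvPolynomial ℕ ℝ) (T : Finset (ℕ →₀ ℕ))
    (h : p.support ⊆ T) :
    Phi J f p = ∑ C ∈ T, p.coeff C * ∏ j ∈ range J, f (j + 1) (C (j + 1)) := by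
  unfold Phi
  refine Finset.sum_subset h fun C _ hC => ?_
  rw [MvPolynomial.notMem_support_iff.1 hC, zero_mul]

/-- the functional as an additive map -/
noncomputable def PhiL (J : ℕ) (f : ℕ → ℕ → ℝ) : MvPolynomial ℕ ℝ →+ ℝ where
  toFun := Phi J f
  map_zero' := by
    unfold Phi
    rw [MvPolynomial.support_zero, Finset.sum_empty]
  map_add' := by
    classical
    intro p q
    rw [phi_eq J f p (p.support ∪ q.support) Finset.subset_union_left,
      phi_eq J f q (p.support ∪ q.support) Finset.subset_union_right,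
      phi_eq J f (p + q) (p.support ∪ q.support) MvPolynomial.support_add,
      ← Finset.sum_add_distrib]
    refine Finset.sum_congr rfl fun C _ => ?_
    rw [MvPolynomial.coeff_add, add_mul]

theorem phi_monomial (J : ℕ) (f : ℕ → ℕ → ℝ) (e : ℕ →₀ ℕ) :
    Phi J f (MvPolynomial.monomial e 1) = ∏ j ∈ range J, f (j + 1) (e (j + 1)) := by
  classical
  unfold Phi
  rw [MvPolynomial.support_monomial, if_neg one_ne_zero, Finset.sum_singleton,
    MvPolynomial.coeff_monomial, if_pos rfl, one_mul]

theorem wt_mono (L : List (ℕ × ℕ × ℕ)) : ∃ e : ℕ →₀ ℕ,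
    (L.map (fun b => Xv (bsz b))).prod = MvPolynomial.monomial e 1 ∧
      ∀ j, e j = L.countP (fun b => bsz b = j) := by
  induction L with
  | nil =>
    refine ⟨0, ?_, fun j => rfl⟩
    rw [List.map_nil, List.prod_nil]
    rfl
  | cons b L ih =>
    obtain ⟨e, h1, h2⟩ := ih
    refine ⟨Finsupp.single (bsz b) 1 + e, ?_, fun j => ?_⟩
    · rw [List.map_cons, List.prod_cons, h1]
      unfold Xv
      rw [MvPolynomial.X, MvPolynomial.monomial_mul, one_mul]
    · rw [Finsupp.add_apply, h2 j, List.countP_cons, Finsupp.single_apply, add_comm]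
      simp only [decide_eq_true_eq]

theorem phg : PhgStmt := by
  intro J f d
  have h1 := map_gsum (PhiL J f) d.length d (wt Xv) rfl
  have h2 : (PhiL J f) (gsum d (wt Xv)) = Phi J f (gsum d (wt Xv)) := rfl
  rw [← h2, h1]
  congr 1
  funext c
  obtain ⟨e, h3, h4⟩ := wt_mono (bund 0 c)
  have h5 : (PhiL J f) (wt Xv c) = Phi J f (wt Xv c) := rfl
  rw [h5]
  unfold wt
  rw [h3, phi_monomial]
  refine Finset.prod_congr rfl fun j _ => ?_
  rw [h4]
  rfl

end Pool.Agent.UMG.A.H23
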