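import Pool.Agent.UMG.StmtsA

set_option autoImplicit false

/-!
# Squad UMG, row PHO: weighted homogeneity of the polynomials
-/

namespace Pool.Agent.UMG.A.H23

open Finset Pool.Agent.UMG

/-- weighted homogeneous of degree `m` in the variables allowed by `S` -/
def WH (S : ℕ → Prop) (m : ℕ) (p : MvPolynomial ℕ ℝ) : Prop :=
  ∀ C ∈ p.support, (C.sum fun i c => i * c) = m ∧ ∀ i, ¬ S i → C i = 0

theorem wh_zero (S : ℕ → Prop) (m : ℕ) : WH S m 0 := by
  intro C hC
  rw [MvPolynomial.support_zero] at hC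
  exact absurd hC (Finset.notMem_empty _)

theorem wh_C (S : ℕ → Prop) (a : ℝ) : WH S 0 (MvPolynomial.C a) := by
  intro C hC
  have h1 : C = 0 := by
    rw [MvPolynomial.mem_support_iff, MvPolynomial.coeff_C] at hC
    by_contra h
    rw [if_neg (fun h' => h h'.symm)] at hC
    exact hC rfl
  rw [h1]
  exact ⟨Finsupp.sum_zero_index, fun i _ => rfl⟩

theorem wh_X (S : ℕ → Prop) (i : ℕ) (hi : S i) : WH S i (MvPolynomial.X i) := by
  intro C hC
  rw [MvPolynomial.support_X, Finset.mem_singleton] at hC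
  rw [hC]
  refine ⟨?_, ?_⟩
  · rw [Finsupp.sum_single_index (by rfl), mul_one]
  · intro j hj
    rw [Finsupp.single_eq_of_ne]
    rintro rfl
    exact hj hi

theorem wh_add {S : ℕ → Prop} {m : ℕ} {p q : MvPolynomial ℕ ℝ} (hp : WH S m p) (hq : WH S m q) :
    WH S m (p + q) := by
  classical
  intro C hC
  have h1 := MvPolynomial.support_add hC
  rw [Finset.mem_union] at h1
  rcases h1 with h1 | h1
  · exact hp C h1
  · exact hq C h1

theorem wh_mul {S : ℕ → Prop} {m n : ℕ} {p q : MvPolynomial ℕ ℝ} (hp : WH S m p) (hq : WH S n q) :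
    WH S (m + n) (p * q) := by
  classical
  intro C hC
  have h1 := MvPolynomial.support_mul p q hC
  rw [Finset.mem_add] at h1
  obtain ⟨A, hA, B, hB, rfl⟩ := h1
  obtain ⟨a1, a2⟩ := hp A hA
  obtain ⟨b1, b2⟩ := hq B hB
  refine ⟨?_, ?_⟩
  · rw [Finsupp.sum_add_index' (fun i => by rfl) (fun i c c' => by ring), a1, b1]
  · intro i hi
    rw [Finsupp.add_apply, a2 i hi, b2 i hi]

theorem wh_sum {S : ℕ → Prop} {m : ℕ} {ι : Type} (s : Finset ι) (p : ι → MvPolynomial ℕ ℝ)
    (h : ∀ i ∈ s, WH S m (p i)) : WH S m (∑ i ∈ s, p i) := by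
  classical
  induction s using Finset.induction_on with
  | empty =>
    rw [Finset.sum_empty]
    exact wh_zero S m
  | insert a s ha ih =>
    rw [Finset.sum_insert ha]
    exact wh_add (h a (Finset.mem_insert_self _ _))
      (ih fun i hi => h i (Finset.mem_insert_of_mem hi))

theorem wh_prod {S : ℕ → Prop} (s : Finset ℕ) (m : ℕ → ℕ) (p : ℕ → MvPolynomial ℕ ℝ)
    (h : ∀ i ∈ s, WH S (m i) (p i)) : WH S (∑ i ∈ s, m i) (∏ i ∈ s, p i) := by
  classical
  induction s using Finset.induction_on with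
  | empty =>
    rw [Finset.sum_empty, Finset.prod_empty]
    have := wh_C S 1
    rw [MvPolynomial.C_1] at this
    exact this
  | insert a s ha ih =>
    rw [Finset.sum_insert ha, Finset.prod_insert ha]
    exact wh_mul (h a (Finset.mem_insert_self _ _))
      (ih fun i hi => h i (Finset.mem_insert_of_mem hi))

theorem wh_E {S : ℕ → Prop} (w : ℕ → MvPolynomial ℕ ℝ) (k N : ℕ)
    (h : ∀ l, 1 ≤ l → l ≤ N → WH S (l * k) (w l)) : ∀ n, n ≤ N → WH S (n * k) (E w n) := by
  intro n
  induction n using Nat.strong_induction_on with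
  | _ n ih =>
    intro hn
    cases n with
    | zero =>
      rw [E, zero_mul]
      have := wh_C S 1
      rw [MvPolynomial.C_1] at this
      exact this
    | succ n =>
      rw [E, Algebra.smul_def, MvPolynomial.algebraMap_apply]
      have h1 : WH S (0 + (n + 1) * k) (MvPolynomial.C ((algebraMap ℚ ℝ) ((1 : ℚ) / ((n : ℚ) + 1))) *
          ∑ i ∈ range (n + 1), w (i + 1) * E w (n - i)) := by
        refine wh_mul (wh_C S _) (wh_sum _ _ fun i hi => ?_)
        rw [Finset.mem_range] at hi
        have h2 : (n + 1) * k = (i + 1) * k + (n - i) * k := by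
          rw [← add_mul]
          congr 1
          omega
        rw [h2]
        exact wh_mul (h (i + 1) (by omega) (by omega)) (ih (n - i) (by omega) (by omega))
      rw [zero_add] at h1
      exact h1

theorem wh_hh {S : ℕ → Prop} (l k : ℕ) (h : ∀ i, 1 ≤ i → i ≤ k → S (l * i)) :
    WH S (k * l) (hh Xv l k) := by
  refine wh_E _ l k (fun i hi hik => ?_) k le_rfl
  rw [mul_comm i l]
  exact wh_X S (l * i) (h i hi hik)

theorem wh_sumd (d : List ℕ) : ∑ k ∈ d.toFinset, d.count k * k = d.sum := by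
  rw [Finset.sum_list_count]
  rfl

theorem pho : PhoStmt := by
  intro K d hK
  refine ⟨?_, ?_⟩
  · have h1 : WH (fun i => 1 ≤ i) (∑ k ∈ d.toFinset, d.count k * k) (PP Xv d) := by
      refine wh_prod _ _ _ fun k _ => ?_
      refine wh_E _ k (d.count k) (fun l hl _ => ?_) _ le_rfl
      rw [mul_comm l k]
      exact wh_hh l k fun i hi _ => Nat.mul_pos hl hi
    rw [wh_sumd] at h1
    intro C hC
    obtain ⟨h2, h3⟩ := h1 C hC
    exact ⟨h2, h3 0 (by simp)⟩
  · have h1 : WH (fun i => 1 ≤ i ∧ i ≤ K) (∑ k ∈ d.toFinset, d.count k * k) (PS K Xv d) := by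
      refine wh_prod _ _ _ fun k _ => ?_
      refine wh_E _ k (d.count k) (fun l hl _ => ?_) _ le_rfl
      unfold ws
      by_cases h1 : l = 1
      · rw [if_pos h1, h1, one_mul]
        have h2 : WH (fun i => 1 ≤ i ∧ i ≤ K) (k * 1)
            (E (fun i => if i ≤ K then Xv i else 0) k) := by
          refine wh_E _ 1 k (fun i hi _ => ?_) _ le_rfl
          rw [mul_one]
          by_cases h3 : i ≤ K
          · simp only [if_pos h3]
            exact wh_X _ i ⟨hi, h3⟩
          · simp only [if_neg h3]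
            exact wh_zero _ _
        rw [mul_one] at h2
        exact h2
      · rw [if_neg h1]
        by_cases h2 : l = 2 ∧ k = 3
        · rw [if_pos h2, h2.1, h2.2]
          have h3 : WH (fun i => 1 ≤ i ∧ i ≤ K) (3 * 2) (hh Xv 2 3) :=
            wh_hh 2 3 fun i hi hi3 => ⟨by omega, by omega⟩
          exact h3
        · rw [if_neg h2]
          exact wh_zero _ _
    rw [wh_sumd] at h1
    intro C hC
    obtain ⟨h2, h3⟩ := h1 C hC
    refine ⟨h2, h3 0 (by simp), fun i hi => h3 i ?_⟩
    rintro ⟨_, h4⟩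
    omega

end Pool.Agent.UMG.A.H23
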