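import Pool.Agent.UMG.StmtsA

set_option autoImplicit false

/-!
# Squad UMG, row PNN: comparison of coefficients
-/

namespace Pool.Agent.UMG.A.H23

open Finset Pool.Agent.UMG

/-- `0 ≤ p ≤ q` for all coefficients -/
def CL (p q : MvPolynomial ℕ ℝ) : Prop := ∀ C, 0 ≤ p.coeff C ∧ p.coeff C ≤ q.coeff C

theorem cl_zero : CL 0 0 := fun C => by
  rw [MvPolynomial.coeff_zero]
  exact ⟨le_rfl, le_rfl⟩

theorem cl_C {a : ℝ} (ha : 0 ≤ a) : CL (MvPolynomial.C a) (MvPolynomial.C a) := fun C => by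
  rw [MvPolynomial.coeff_C]
  split_ifs
  · exact ⟨ha, le_rfl⟩
  · exact ⟨le_rfl, le_rfl⟩

theorem cl_X (i : ℕ) : CL (MvPolynomial.X i) (MvPolynomial.X i) := fun C => by
  rw [MvPolynomial.coeff_X']
  split_ifs
  · exact ⟨zero_le_one, le_rfl⟩
  · exact ⟨le_rfl, le_rfl⟩

theorem cl_zero' {p q : MvPolynomial ℕ ℝ} (h : CL p q) : CL 0 q := fun C => by
  rw [MvPolynomial.coeff_zero]
  exact ⟨le_rfl, (h C).1.trans (h C).2⟩

theorem cl_add {p q p' q' : MvPolynomial ℕ ℝ} (h : CL p q) (h' : CL p' q') :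
    CL (p + p') (q + q') := fun C => by
  rw [MvPolynomial.coeff_add, MvPolynomial.coeff_add]
  exact ⟨add_nonneg (h C).1 (h' C).1, add_le_add (h C).2 (h' C).2⟩

theorem cl_mul {p q p' q' : MvPolynomial ℕ ℝ} (h : CL p q) (h' : CL p' q') :
    CL (p * p') (q * q') := fun C => by
  classical
  rw [MvPolynomial.coeff_mul, MvPolynomial.coeff_mul]
  refine ⟨Finset.sum_nonneg fun x _ => mul_nonneg (h _).1 (h' _).1,
    Finset.sum_le_sum fun x _ => ?_⟩
  exact mul_le_mul (h _).2 (h' _).2 (h' _).1 ((h _).1.trans (h _).2)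

theorem cl_sum {ι : Type} (s : Finset ι) (p q : ι → MvPolynomial ℕ ℝ)
    (h : ∀ i ∈ s, CL (p i) (q i)) : CL (∑ i ∈ s, p i) (∑ i ∈ s, q i) := by
  classical
  induction s using Finset.induction_on with
  | empty =>
    rw [Finset.sum_empty, Finset.sum_empty]
    exact cl_zero
  | insert a s ha ih =>
    rw [Finset.sum_insert ha, Finset.sum_insert ha]
    exact cl_add (h a (Finset.mem_insert_self _ _))
      (ih fun i hi => h i (Finset.mem_insert_of_mem hi))

theorem cl_one : CL 1 1 := by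
  have := cl_C (zero_le_one (α := ℝ))
  rw [MvPolynomial.C_1] at this
  exact this

theorem cl_prod (s : Finset ℕ) (p q : ℕ → MvPolynomial ℕ ℝ)
    (h : ∀ i ∈ s, CL (p i) (q i)) : CL (∏ i ∈ s, p i) (∏ i ∈ s, q i) := by
  classical
  induction s using Finset.induction_on with
  | empty =>
    rw [Finset.prod_empty, Finset.prod_empty]
    exact cl_one
  | insert a s ha ih =>
    rw [Finset.prod_insert ha, Finset.prod_insert ha]
    exact cl_mul (h a (Finset.mem_insert_self _ _))
      (ih fun i hi => h i (Finset.mem_insert_of_mem hi))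

theorem cl_E (w w' : ℕ → MvPolynomial ℕ ℝ) (h : ∀ l, 1 ≤ l → CL (w l) (w' l)) (n : ℕ) :
    CL (E w n) (E w' n) := by
  induction n using Nat.strong_induction_on with
  | _ n ih =>
    cases n with
    | zero =>
      rw [E, E]
      exact cl_one
    | succ n =>
      rw [E, E, Algebra.smul_def, Algebra.smul_def, MvPolynomial.algebraMap_apply]
      refine cl_mul (cl_C ?_) (cl_sum _ _ _ fun i hi => ?_)
      · have h1 : (0 : ℚ) ≤ (1 : ℚ) / ((n : ℚ) + 1) := by positivity
        have h2 : (algebraMap ℚ ℝ) ((1 : ℚ) / ((n : ℚ) + 1)) = (((1 : ℚ) / ((n : ℚ) + 1) : ℚ) : ℝ) :=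
          rfl
        rw [h2]
        exact_mod_cast h1
      · exact cl_mul (h (i + 1) (by omega)) (ih (n - i) (by omega))

theorem cl_hh (l k : ℕ) : CL (hh Xv l k) (hh Xv l k) :=
  cl_E _ _ (fun i _ => cl_X (l * i)) k

theorem pnn : PnnStmt := by
  intro K d
  have h0 : CL (PS K Xv d) (PP Xv d) := by
    refine cl_prod _ _ _ fun k _ => ?_
    refine cl_E _ _ (fun l _ => ?_) _
    unfold ws
    by_cases h1 : l = 1
    · rw [if_pos h1, h1]
      refine cl_E _ _ (fun i _ => ?_) k
      rw [one_mul]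
      by_cases h3 : i ≤ K
      · simp only [if_pos h3]
        exact cl_X i
      · simp only [if_neg h3]
        exact cl_zero' (cl_X i)
    · rw [if_neg h1]
      by_cases h2 : l = 2 ∧ k = 3
      · rw [if_pos h2, h2.1, h2.2]
        exact cl_hh 2 3
      · rw [if_neg h2]
        exact cl_zero' (cl_hh l k)
  exact h0

end Pool.Agent.UMG.A.H23
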