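import Pool.Agent.UMG.StmtsA

set_option autoImplicit false

namespace Pool.Agent.UMG.A.H23

open Finset Pool.Agent.UMG

/-- the indicator of `1` -/
noncomputable def yy (i : ℕ) : ℝ := if i = 1 then 1 else 0

theorem hh_one (hSNG : SngStmt) (k : ℕ) : hh yy 1 k = 1 / (k.factorial : ℝ) := by
  unfold hh
  have h1 : (fun i => yy (1 * i)) = fun l => if l = 1 then (1 : ℝ) else 0 := by
    funext l
    rw [one_mul]
    rfl
  rw [h1, hSNG 1 k, one_pow]

theorem hh_ne (hSNG : SngStmt) (l k : ℕ) (hl : l ≠ 1) (hk : 1 ≤ k) : hh yy l k = 0 := by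
  unfold hh
  have h1 : (fun i => yy (l * i)) = fun i => if i = 1 then (0 : ℝ) else 0 := by
    funext i
    unfold yy
    rw [if_neg]
    · rw [ite_self]
    · intro h
      exact hl (Nat.eq_one_of_mul_eq_one_right h)
  rw [h1, hSNG 0 k, zero_pow (by omega), zero_div]

theorem aa_yy (hSNG : SngStmt) (k n : ℕ) (hk : 1 ≤ k) :
    aa yy k n = 1 / (((n.factorial * k.factorial ^ n : ℕ)) : ℝ) := by
  unfold aa
  have h1 : (fun l => hh yy l k) = fun l => if l = 1 then (1 / (k.factorial : ℝ)) else 0 := by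
    funext l
    by_cases hl : l = 1
    · rw [if_pos hl, hl, hh_one hSNG]
    · rw [if_neg hl, hh_ne hSNG l k hl hk]
  rw [h1, hSNG (1 / (k.factorial : ℝ)) n, div_pow, one_pow, div_div, Nat.cast_mul, Nat.cast_pow,
    mul_comm]

theorem top (hPHO : PhoStmt) (hEVP : EvpStmt) (hSNG : SngStmt) : TopStmt := by
  intro d hd
  have h1 := (hEVP 6 yy d).1
  have hsup := (hPHO 6 d le_rfl).1
  have key : ∀ C ∈ (PP Xv d).support, C ≠ Finsupp.single 1 d.sum → ∃ i, i ≠ 1 ∧ C i ≠ 0 := by
    intro C hC hne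
    by_contra hcon
    apply hne
    have hcon' : ∀ i, i ≠ 1 → C i = 0 := by
      intro i hi
      by_contra h
      exact hcon ⟨i, hi, h⟩
    have e : C = Finsupp.single 1 (C 1) := by
      ext i
      by_cases hi : i = 1
      · rw [hi, Finsupp.single_eq_same]
      · rw [hcon' i hi, Finsupp.single_eq_of_ne hi]
    have hw := (hsup C hC).1
    have hw2 : (C.sum fun i c => i * c) = C 1 := by
      rw [e, Finsupp.sum_single_index (by rfl), one_mul, Finsupp.single_eq_same]
    rw [hw2] at hw
    rw [e, hw]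
  have h2 : MvPolynomial.eval yy (PP Xv d) = (PP Xv d).coeff (Finsupp.single 1 d.sum) := by
    rw [MvPolynomial.eval_eq, Finset.sum_eq_single (Finsupp.single 1 d.sum)]
    · have h3 : ∏ i ∈ (Finsupp.single 1 d.sum : ℕ →₀ ℕ).support,
          yy i ^ (Finsupp.single 1 d.sum : ℕ →₀ ℕ) i = 1 := by
        refine Finset.prod_eq_one fun i hi => ?_
        have h4 := Finsupp.support_single_subset hi
        rw [Finset.mem_singleton] at h4
        rw [h4]
        unfold yy
        rw [if_pos rfl, one_pow]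
      rw [h3, mul_one]
    · intro C hC hne
      obtain ⟨i, hi, hCi⟩ := key C hC hne
      rw [Finset.prod_eq_zero (Finsupp.mem_support_iff.2 hCi), mul_zero]
      unfold yy
      rw [if_neg hi, zero_pow hCi]
    · intro h
      rw [MvPolynomial.notMem_support_iff.1 h, zero_mul]
  rw [← h2, h1]
  unfold PP gam
  rw [Nat.cast_prod, one_div, ← Finset.prod_inv_distrib]
  refine Finset.prod_congr rfl fun k hk => ?_
  rw [aa_yy hSNG k _ (hd k (List.mem_toFinset.1 hk)), one_div]

end Pool.Agent.UMG.A.H23
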