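import Pool.Agent.UMG.StmtsD

set_option autoImplicit false

/-!
# Squad UMG, row YPR: the sum over the grid points and the leaves
-/

namespace Pool.Agent.UMG.H23

open Finset Pool.Agent.UMG

theorem consec (L h : ℕ → ℕ) (m : ℕ) :
    ∑ b ∈ range m, ∑ r ∈ range (L b), h (∑ i ∈ range b, L i + r) =
      ∑ y ∈ range (∑ b ∈ range m, L b), h y := by
  induction m with
  | zero => simp
  | succ m ih => rw [Finset.sum_range_succ, ih, Finset.sum_range_succ, Finset.sum_range_add]

theorem ypr (hMXR : MxrStmt) (hDGT : DgtStmt) : YprStmt := by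
  intro M K c ψ
  -- the length of the interval and the function of the digit
  obtain ⟨L, hL⟩ : ∃ L : ℕ → ℕ → ℕ, L = fun j b =>
    coef M (j + 1) b * Xb M (j + 1) b ^ cnt c (j + 1) := ⟨_, rfl⟩
  obtain ⟨φ, hφ⟩ : ∃ φ : ℕ → ℕ → ℕ, φ = fun j b =>
    ∑ r ∈ range (L j b), ψ j (∑ i ∈ range b, L j i + r) := ⟨_, rfl⟩
  have h1 : ∀ g, ∑ z ∈ range (∏ j ∈ range (K + M), YB M K g c j),
      ∏ j ∈ range (K + M), ψ j (yy M K g c z j) =
      (∏ j ∈ range K, φ j (dg M g j)) *
        ∏ j ∈ range M, ∑ y ∈ range (Yt M K c (K + j)), ψ (K + j) y := by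
    intro g
    have h2 := hMXR (K + M) (YB M K g c) (fun j r => ψ j
      ((if j < K then ∑ b ∈ range (dg M g j), coef M (j + 1) b * Xb M (j + 1) b ^ cnt c (j + 1)
        else 0) + r))
    have h3 : ∑ z ∈ range (∏ j ∈ range (K + M), YB M K g c j),
      ∏ j ∈ range (K + M), ψ j (yy M K g c z j) =
      ∑ z ∈ range (∏ j ∈ range (K + M), YB M K g c j), ∏ j ∈ range (K + M),
        (fun j r => ψ j
      ((if j < K then ∑ b ∈ range (dg M g j), coef M (j + 1) b * Xb M (j + 1) b ^ cnt c (j + 1)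
        else 0) + r)) j (z / (∏ i ∈ range j, YB M K g c i) % YB M K g c j) := rfl
    rw [h3, h2, Finset.prod_range_add]
    congr 1
    · refine Finset.prod_congr rfl fun j hj => ?_
      rw [Finset.mem_range] at hj
      have h4 : YB M K g c j = L j (dg M g j) := by
        rw [hL]
        unfold YB fX Xb
        rw [if_pos hj, if_pos (by omega : j + 1 ≤ K)]
        rfl
      rw [h4, hφ]
      refine Finset.sum_congr rfl fun r _ => ?_
      rw [if_pos hj, hL]
    · refine Finset.prod_congr rfl fun j hj => ?_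
      have h5 : ¬ (K + j < K) := by omega
      have h4 : YB M K g c (K + j) = Yt M K c (K + j) := by
        unfold YB fX Yt
        rw [if_neg h5, if_neg h5, if_neg (by omega : ¬ (K + j + 1 ≤ K)), one_mul]
      rw [h4]
      refine Finset.sum_congr rfl fun r _ => ?_
      rw [if_neg h5, zero_add]
  rw [Finset.sum_congr rfl fun g _ => h1 g, ← Finset.sum_mul, Finset.prod_range_add]
  congr 1
  have h6 : (∑ g ∈ range ((M + 1) ^ K), ∏ j ∈ range K, φ j (dg M g j)) =
      ∏ j ∈ range K, ∑ b ∈ range (M + 1), φ j b := by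
    have h7 := hDGT M K (fun j b => (φ j b : ℝ))
    exact_mod_cast h7
  rw [h6]
  refine Finset.prod_congr rfl fun j hj => ?_
  rw [Finset.mem_range] at hj
  rw [hφ]
  have h8 := consec (L j) (ψ j) (M + 1)
  refine h8.trans ?_
  unfold Yt
  rw [if_pos hj, hL]

end Pool.Agent.UMG.H23
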